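import Pool.Agent.V1153.LK.Stab

/-!
# Restricted hyperbolicity is stable, with locally uniform constants

Let `X_t` be a continuous family of closed subsets of the projective space of dimension `n` over the
complex numbers: the parameters `t` are the points of a (first countable) topological space `T`, and
`X_t` is given by forms `F_l(t)`, `l ∈ ι`, such that the values `F_l(t)(x)` depend continuously on
`(t, x)` and the degree of `F_l(t)` does not depend on `t`. For a class `𝒟` of holomorphic maps from
the unit disc to the projective space `kob 𝒟` is the Kobayashi pseudodistance given by the chains of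
discs in `𝒟`; `KobGe c 𝒟` says that it is at least `c` times the distance in the projective space, and
`fs f 0` is the norm of the derivative at the centre, for the Fubini-Study metric.

`DAlg E m`: the discs in the variety with the equations `E` all of whose quotients of coordinates are
algebraic functions which satisfy an equation of bidegree at most `(m, m)`.

`DCx E s r e d`: the discs of complexity at most `(s, r, e, d)`: on some open set the homogeneous
coordinates, up to a common factor, are polynomials of degree at most `e` in each of the functions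
`z`, `1 / q(z)` and the entries of the solutions `y_1, ..., y_s` of iterated systems of `r` linear
differential equations, and `q` is a polynomial of degree at most `d`.

We show that if `X_{t_0}` contains no rational curves of degree at most `N`, where `N` depends only on
`n`, the degrees of the forms and the complexity, then there are positive constants `C`, `c` such that
for all `t` in a neighbourhood of `t_0` the derivatives of the discs of this complexity in `X_t` are
at most `C`, and their Kobayashi pseudodistance is at least `c` times the distance in the projective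
space; and also rational curves of bounded degree do not appear near `t_0`.
-/

set_option autoImplicit false

namespace Pool.Agent.Results.MP_6f117a_ag.StableHyperbolicity

open MvPolynomial Topology Filter Pool.Agent.V1153.UG Pool.Agent.V1153.KB

/-- **(1)** If `X_{t_0}` contains no rational curves of degree at most `(n + 1) N`, then for all `t` in
a neighbourhood of `t_0` there are no rational curves of degree at most `N` in `X_t`, the derivatives
of the algebraic discs of bidegree at most `(N, N)` in `X_t` are bounded by the same constant, and the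
Kobayashi pseudodistances given by these discs are bounded below by the same multiple of the distance
in the projective space. **(2)** For all `(s, r, e, d)` there is a number `N`, depending only on these
numbers, on `n` and on the bound `D` for the degrees of the forms, such that if `X_{t_0}` contains no
rational curves of degree at most `N` then the two bounds hold for the discs of complexity
`(s, r, e, d)`. **(3)** If the Kobayashi pseudodistance of `X_{t_0}` is a distance, or if all integral
closed subvarieties of `X_{t_0}` with more than one point are of general type, then the conclusions of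
(1) and (2) hold for all `N` and all `(s, r, e, d)`. -/
theorem result (n D : ℕ) :
    (∀ (N : ℕ) (T : Type) [TopologicalSpace T] [FirstCountableTopology T] (ι : Type)
      (F : ι → T → MvPolynomial (Fin (n + 1)) ℂ), (∀ l, ∃ a, CFam a (F l)) → ∀ t0 : T,
      (∀ P, ¬ GmBdd (Ideal.span (fib F t0)) 1 ((n + 1) * N) P) →
        ∃ C c : ℝ, 0 < c ∧ ∀ᶠ t in 𝓝 t0, (∀ P, ¬ GmBdd (Ideal.span (fib F t)) 1 N P) ∧
          (∀ f, DAlg (fib F t) N f → fs f 0 ≤ C) ∧ KobGe c (DAlg (fib F t) N)) ∧
    (∀ s r e d : ℕ, ∃ N, ∀ (T : Type) [TopologicalSpace T] [FirstCountableTopology T] (ι : Type)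
      (F : ι → T → MvPolynomial (Fin (n + 1)) ℂ), (∀ l, ∃ a ≤ D, CFam a (F l)) → ∀ t0 : T,
      (∀ P, ¬ GmBdd (Ideal.span (fib F t0)) 1 N P) →
        ∃ C c : ℝ, 0 < c ∧ ∀ᶠ t in 𝓝 t0, (∀ f, DCx (fib F t) s r e d f → fs f 0 ≤ C) ∧
          KobGe c (DCx (fib F t) s r e d)) ∧
    ∀ (T : Type) [TopologicalSpace T] [FirstCountableTopology T] (ι : Type)
      (F : ι → T → MvPolynomial (Fin (n + 1)) ℂ), (∀ l, ∃ a ≤ D, CFam a (F l)) → ∀ t0 : T,
      KobHyp (fib F t0) (RDisc (fib F t0) 1) ∨ AllGeneral (fib F t0) →
        (∀ N, ∃ C c : ℝ, 0 < c ∧ ∀ᶠ t in 𝓝 t0, (∀ P, ¬ GmBdd (Ideal.span (fib F t)) 1 N P) ∧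
          (∀ f, DAlg (fib F t) N f → fs f 0 ≤ C) ∧ KobGe c (DAlg (fib F t) N)) ∧
        ∀ s r e d, ∃ C c : ℝ, 0 < c ∧ ∀ᶠ t in 𝓝 t0,
          (∀ f, DCx (fib F t) s r e d f → fs f 0 ≤ C) ∧ KobGe c (DCx (fib F t) s r e d) := by
  have h1 : ∀ (N : ℕ) (T : Type) [TopologicalSpace T] [FirstCountableTopology T] (ι : Type)
      (F : ι → T → MvPolynomial (Fin (n + 1)) ℂ), (∀ l, ∃ a, CFam a (F l)) → ∀ t0 : T,
      (∀ P, ¬ GmBdd (Ideal.span (fib F t0)) 1 ((n + 1) * N) P) →
        ∃ C c : ℝ, 0 < c ∧ ∀ᶠ t in 𝓝 t0, (∀ P, ¬ GmBdd (Ideal.span (fib F t)) 1 N P) ∧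
          (∀ f, DAlg (fib F t) N f → fs f 0 ≤ C) ∧ KobGe c (DAlg (fib F t) N) := by
    intro N T _ _ ι F hF t0 hno
    obtain ⟨C, hC⟩ := stab_alg N F hF t0 hno
    refine ⟨(n + 1) * C, kc n C, kc_pos n C, ?_⟩
    filter_upwards [hC] with t ht
    exact ⟨ht.1, ht.2 _ fun f hf => hf⟩
  refine ⟨h1, fun s r e d => stab_cx n D s r e d, fun T _ _ ι F hF t0 h => ?_⟩
  have hE : ∀ G ∈ fib F t0, ∃ a ≤ D, G.IsHomogeneous a := by
    rintro _ ⟨l, rfl⟩
    obtain ⟨a, ha, h3⟩ := hF l
    exact ⟨a, ha, h3.hom t0⟩
  have hno : ∀ N P, ¬ GmBdd (Ideal.span (fib F t0)) 1 N P := by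
    rcases h with h | h
    · refine ((kob_tfae hE).out 0 1).2 fun m x y hx hy hxE hyE hxy => ?_
      exact lt_of_lt_of_le (h x y hx hy hxE hyE hxy) (kob_anti (fun f hf => hf.1) x y)
    · exact no_curves_of_general hE h
  refine ⟨fun N => h1 N T ι F (fun l => ?_) t0 (hno _), fun s r e d => ?_⟩
  · obtain ⟨a, -, ha⟩ := hF l
    exact ⟨a, ha⟩
  · obtain ⟨N, hN⟩ := stab_cx n D s r e d
    exact hN T ι F hF t0 (hno N)

end Pool.Agent.Results.MP_6f117a_ag.StableHyperbolicity
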